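import Pool.Agent.Helper10.RS.Goals

/-! Packet AUTO of project RS. -/

namespace Pool.Agent.Helper81.RS

universe u

open Pool.Agent.Helper10.RS

/-- the elements of order `r` -/
abbrev Sx (G : Type u) [Group G] (r : ℕ) : Type u := {x : G // orderOf x = r}

theorem orderOf_conj' {G : Type u} [Group G] (a : ConjAct G) (x : G) :
    orderOf (a • x) = orderOf x := by
  rw [ConjAct.smul_def, ← MulAut.conj_apply]
  exact MulEquiv.orderOf_eq _ _

instance act (G : Type u) [Group G] (r : ℕ) : MulAction (ConjAct G) (Sx G r) where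
  smul g x := ⟨g • x.1, by rw [orderOf_conj', x.2]⟩
  one_smul x := Subtype.ext (one_smul _ x.1)
  mul_smul g h x := Subtype.ext (mul_smul g h x.1)

theorem smul_val {G : Type u} [Group G] {r : ℕ} (g : ConjAct G) (x : Sx G r) :
    ((g • x : Sx G r) : G) = g • x.1 := rfl

theorem key {G : Type u} [Group G] [Finite G] {r m : ℕ} (hr : r.Prime)
    (hG : Nat.card G = r * m) (hm : ¬ r ∣ m) {x g : G} (hx : orderOf x = r)
    (hc : Commute x g) {e : ℕ} (he : m ∣ e) : ∃ i < r, g ^ e = x ^ i := by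
  have := Fact.mk hr
  classical
  set h := g ^ e with hh
  have h1 : h ^ r = 1 := by
    obtain ⟨k, rfl⟩ := he
    rw [hh, ← pow_mul, show m * k * r = Nat.card G * k by rw [hG]; ring, pow_mul, pow_card_eq_one',
      one_pow]
  have hx1 : IsPGroup r (Subgroup.zpowers x) :=
    IsPGroup.of_card (n := 1) (by rw [Nat.card_zpowers, hx, pow_one])
  have hh1 : IsPGroup r (Subgroup.zpowers h) := by
    rcases (Nat.dvd_prime hr).1 (orderOf_dvd_of_pow_eq_one h1) with h2 | h2
    · exact IsPGroup.of_card (n := 0) (by rw [Nat.card_zpowers, h2, pow_zero])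
    · exact IsPGroup.of_card (n := 1) (by rw [Nat.card_zpowers, h2, pow_one])
  have hn : Subgroup.zpowers h ≤ Subgroup.normalizer (Subgroup.zpowers x : Set G) := by
    rw [Subgroup.zpowers_le]
    refine Subgroup.centralizer_le_normalizer _ (Subgroup.mem_centralizer_iff.2 fun y hy => ?_)
    obtain ⟨k, rfl⟩ := Subgroup.mem_zpowers_iff.1 hy
    exact ((hc.pow_right e).zpow_left k).eq
  have hK := IsPGroup.to_sup_of_normal_left' hx1 hh1 hn
  obtain ⟨n, hn'⟩ := IsPGroup.iff_card.1 hK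
  have hdvd : Nat.card ↥(Subgroup.zpowers x ⊔ Subgroup.zpowers h) ∣ Nat.card G :=
    Subgroup.card_subgroup_dvd_card _
  have hn1 : n ≤ 1 := by
    by_contra hcon
    have h2 : r ^ 2 ∣ r * m := by
      rw [← hG]
      rw [hn'] at hdvd
      exact (pow_dvd_pow r (by omega)).trans hdvd
    rw [pow_two] at h2
    exact hm (Nat.dvd_of_mul_dvd_mul_left hr.pos h2)
  have hle : Nat.card ↥(Subgroup.zpowers x ⊔ Subgroup.zpowers h) ≤
      Nat.card ↥(Subgroup.zpowers x) := by
    rw [hn', Nat.card_zpowers, hx]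
    calc r ^ n ≤ r ^ 1 := Nat.pow_le_pow_right hr.pos hn1
      _ = r := pow_one r
  have heq := Subgroup.eq_of_le_of_card_ge (le_sup_left : Subgroup.zpowers x ≤ _) hle
  have hmem : h ∈ Subgroup.zpowers x := by
    rw [heq]
    exact (le_sup_right : Subgroup.zpowers h ≤ _) (Subgroup.mem_zpowers h)
  rw [mem_zpowers_iff_mem_range_orderOf, Finset.mem_image] at hmem
  obtain ⟨i, hi, hi2⟩ := hmem
  rw [Finset.mem_range, hx] at hi
  exact ⟨i, hi, hi2.symm⟩

theorem p_auto : AUTO.{u} := by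
  intro G _ _ r hr hr2 hreg R hR x hx y hy hx1 hy1
  have hord : ∀ z ∈ R, z ≠ 1 → orderOf z = r := by
    intro z hz hz1
    have h1 : orderOf z ∣ r := by
      have h2 : orderOf (⟨z, hz⟩ : R) ∣ Nat.card R := orderOf_dvd_natCard _
      rwa [Subgroup.orderOf_mk, hR] at h2
    rcases (Nat.dvd_prime hr).1 h1 with h2 | h2
    · exact absurd (orderOf_eq_one_iff.1 h2) hz1
    · exact h2
  obtain ⟨m, hG⟩ : r ∣ Nat.card G := by
    rw [← hR]
    exact Subgroup.card_subgroup_dvd_card _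
  have hm : ¬ r ∣ m := by
    rintro ⟨k, rfl⟩
    exact hr2 ⟨k, by rw [hG]; ring⟩
  have hcop : Nat.Coprime r m := (Nat.Prime.coprime_iff_not_dvd hr).2 hm
  obtain ⟨e, he1, he2⟩ := Nat.chineseRemainder hcop 1 0
  obtain ⟨f, hf1, hf2⟩ := Nat.chineseRemainder hcop 0 1
  have hme : m ∣ e := (Nat.modEq_zero_iff_dvd).1 he2
  have hrf : r ∣ f := (Nat.modEq_zero_iff_dvd).1 hf1
  have hsum : e + f ≡ 1 [MOD r * m] := by
    refine (Nat.modEq_and_modEq_iff_modEq_mul hcop).1 ⟨?_, ?_⟩
    · simpa using he1.add hf1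
    · simpa using he2.add hf2
  have hgef : ∀ g : G, g ^ e * g ^ f = g := by
    intro g
    rw [← pow_add]
    conv_rhs => rw [← pow_one g]
    rw [pow_eq_pow_iff_modEq]
    refine hsum.of_dvd ?_
    rw [← hG]
    exact orderOf_dvd_natCard g
  have hfe : ∀ g : G, (g ^ f) ^ e = 1 := by
    intro g
    rw [← pow_mul]
    obtain ⟨a, rfl⟩ := hme
    obtain ⟨b, rfl⟩ := hrf
    rw [show r * b * (m * a) = Nat.card G * (a * b) by rw [hG]; ring, pow_mul, pow_card_eq_one',
      one_pow]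
  have hxe : ∀ x : Sx G r, x.1 ^ e = x.1 := by
    intro x
    conv_rhs => rw [← pow_one x.1]
    rw [pow_eq_pow_iff_modEq, x.2]
    exact he1
  have hcomm : ∀ p : (a : ConjAct G) × ↑(MulAction.fixedBy (Sx G r) a),
      Commute (p.2.1 : Sx G r).1 (ConjAct.ofConjAct p.1) := by
    rintro ⟨a, x, hax⟩
    have h1 := congrArg Subtype.val (MulAction.mem_fixedBy.1 hax)
    rw [smul_val, ConjAct.smul_def, mul_inv_eq_iff_eq_mul] at h1
    exact h1.symm
  have hkey : ∀ p : (a : ConjAct G) × ↑(MulAction.fixedBy (Sx G r) a),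
      ∃ i < r, (ConjAct.ofConjAct p.1) ^ e = (p.2.1 : Sx G r).1 ^ i := fun p =>
    key hr hG hm (p.2.1 : Sx G r).2 (hcomm p) hme
  choose I hI1 hI2 using hkey
  have hpow : ∀ p : (a : ConjAct G) × ↑(MulAction.fixedBy (Sx G r) a),
      ((p.2.1 : Sx G r).1 * (ConjAct.ofConjAct p.1) ^ f) ^ e = (p.2.1 : Sx G r).1 := by
    intro p
    rw [((hcomm p).pow_right f).mul_pow, hfe, mul_one, hxe]
  have hcard : Nat.card ((a : ConjAct G) × ↑(MulAction.fixedBy (Sx G r) a)) ≤
      Nat.card ({g : G // r ∣ orderOf g} × Fin r) := by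
    refine Nat.card_le_card_of_injective (fun p =>
      (⟨(p.2.1 : Sx G r).1 * (ConjAct.ofConjAct p.1) ^ f, ?_⟩, ⟨I p, hI1 p⟩)) ?_
    · have h1 := orderOf_pow_dvd (x := (p.2.1 : Sx G r).1 * (ConjAct.ofConjAct p.1) ^ f) e
      rwa [hpow, (p.2.1 : Sx G r).2] at h1
    · intro p q hpq
      have h1 := congrArg (fun z => z.1.1) hpq
      have h2 := congrArg (fun z => (z.2 : ℕ)) hpq
      dsimp only at h1 h2
      have h3 : (p.2.1 : Sx G r).1 = (q.2.1 : Sx G r).1 := by
        rw [← hpow p, ← hpow q, h1]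
      have h4 : (ConjAct.ofConjAct p.1) ^ f = (ConjAct.ofConjAct q.1) ^ f := by
        rw [h3] at h1
        exact mul_left_cancel h1
      have h5 : (ConjAct.ofConjAct p.1) ^ e = (ConjAct.ofConjAct q.1) ^ e := by
        rw [hI2, hI2, h2, h3]
      have h6 : ConjAct.ofConjAct p.1 = ConjAct.ofConjAct q.1 := by
        rw [← hgef (ConjAct.ofConjAct p.1), ← hgef (ConjAct.ofConjAct q.1), h4, h5]
      obtain ⟨a, z, hz⟩ := p
      obtain ⟨b, z', hz'⟩ := q
      have h7 : a = b := h6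
      have h8 : z = z' := Subtype.ext h3
      subst h7 h8
      rfl
  rw [Nat.card_congr (MulAction.sigmaFixedByEquivOrbitsProdGroup (ConjAct G) (Sx G r)),
    Nat.card_prod, Nat.card_prod, Nat.card_eq_fintype_card (α := Fin r), Fintype.card_fin] at hcard
  have hsplit : Nat.card {g : G // r ∣ orderOf g} + reg G r = Nat.card G := by
    unfold reg
    rw [← Nat.card_sum]
    exact Nat.card_congr (Equiv.sumCompl _)
  have hcG : Nat.card (ConjAct G) = Nat.card G := rfl
  have hpos : 0 < Nat.card G := Nat.card_pos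
  have hsing : Nat.card {g : G // r ∣ orderOf g} * r = Nat.card G := by
    have h1 : 1 ≤ r := hr.pos
    obtain ⟨s, rfl⟩ : ∃ s, r = s + 1 := ⟨r - 1, by omega⟩
    rw [Nat.add_sub_cancel] at hreg
    have h2 : (Nat.card {g : G // s + 1 ∣ orderOf g} + reg G (s + 1)) * (s + 1) =
        Nat.card G * (s + 1) := by rw [hsplit]
    rw [Nat.add_mul, hreg] at h2
    have h3 : Nat.card G * (s + 1) = s * Nat.card G + Nat.card G := by ring
    omega
  rw [hsing, hcG] at hcard
  have hle : Nat.card (Quotient (MulAction.orbitRel (ConjAct G) (Sx G r))) ≤ 1 := by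
    by_contra hcon
    have : 2 * Nat.card G ≤
        Nat.card (Quotient (MulAction.orbitRel (ConjAct G) (Sx G r))) * Nat.card G :=
      Nat.mul_le_mul_right _ (by omega)
    omega
  have hsub := Finite.card_le_one_iff_subsingleton.1 hle
  have hrel := Quotient.exact (hsub.elim
    (Quotient.mk (MulAction.orbitRel (ConjAct G) (Sx G r)) ⟨y, hord y hy hy1⟩)
    (Quotient.mk (MulAction.orbitRel (ConjAct G) (Sx G r)) ⟨x, hord x hx hx1⟩))
  obtain ⟨a, ha⟩ := hrel
  refine ⟨ConjAct.ofConjAct a, ?_⟩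
  have h1 := congrArg Subtype.val ha
  exact h1

end Pool.Agent.Helper81.RS
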