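import Pool.Agent.Helper38.RS.Goals2

/-!
Packet 8860 (RS-SEX) of MP_fc6b1e_nt: `S_SEX` of Helper38/RS/Goals2.lean.
-/

namespace Pool.Agent.Helper81.RS

open NumberField IsDedekindDomain Pool.Agent.Helper38.RS FractionalIdeal
open scoped nonZeroDivisors

section val

variable {M : Type} [Field M] [NumberField M]

/-- The valuation of an algebraic integer is the multiplicity in the ideal it generates. -/
theorem ordv_int (v : HeightOneSpectrum (𝓞 M)) (r : 𝓞 M) (hr : r ≠ 0) :
    ordv v (algebraMap (𝓞 M) M r) = count M v (spanSingleton (𝓞 M)⁰ (algebraMap (𝓞 M) M r)) := by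
  classical
  rw [← coeIdeal_span_singleton, count_coe M v (by simpa using hr), ordv,
    v.valuation_of_algebraMap, v.intValuation_if_neg hr, WithZero.log_exp, neg_neg]

theorem ordv_eq_count (v : HeightOneSpectrum (𝓞 M)) (x : M) (hx : x ≠ 0) :
    ordv v x = count M v (spanSingleton (𝓞 M)⁰ x) := by
  obtain ⟨a, b, hb, rfl⟩ := IsFractionRing.div_surjective (A := 𝓞 M) x
  have hb0 : b ≠ 0 := nonZeroDivisors.ne_zero hb
  have ha0 : a ≠ 0 := by
    rintro rfl
    simp at hx
  have hA : algebraMap (𝓞 M) M a ≠ 0 := by simpa using ha0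
  have hB : algebraMap (𝓞 M) M b ≠ 0 := by simpa using hb0
  have h1 : ordv v (algebraMap (𝓞 M) M a / algebraMap (𝓞 M) M b) =
      ordv v (algebraMap (𝓞 M) M a) - ordv v (algebraMap (𝓞 M) M b) := by
    unfold ordv
    rw [map_div₀, WithZero.log_div ((Valuation.ne_zero_iff _).2 hA)
      ((Valuation.ne_zero_iff _).2 hB)]
    ring
  have h2 : spanSingleton (𝓞 M)⁰ (algebraMap (𝓞 M) M a / algebraMap (𝓞 M) M b) *
      spanSingleton (𝓞 M)⁰ (algebraMap (𝓞 M) M b) = spanSingleton (𝓞 M)⁰ (algebraMap (𝓞 M) M a) := by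
    rw [spanSingleton_mul_spanSingleton, div_mul_cancel₀ _ hB]
  have h3 := count_mul M v (I := spanSingleton (𝓞 M)⁰ (algebraMap (𝓞 M) M a / algebraMap (𝓞 M) M b))
    (I' := spanSingleton (𝓞 M)⁰ (algebraMap (𝓞 M) M b))
    (by rw [Ne, spanSingleton_eq_zero_iff]; exact hx)
    (by rw [Ne, spanSingleton_eq_zero_iff]; exact hB)
  rw [h2] at h3
  rw [h1, ordv_int v a ha0, ordv_int v b hb0, h3]
  ring

/-- A prime is determined by its valuation. -/
theorem eq_of_valuation (v w : HeightOneSpectrum (𝓞 M))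
    (h : ∀ y : M, v.valuation M y = w.valuation M y) : v = w := by
  apply HeightOneSpectrum.ext
  ext r
  have h1 := h (algebraMap (𝓞 M) M r)
  rw [v.valuation_of_algebraMap, w.valuation_of_algebraMap] at h1
  have hv := v.intValuation_lt_one_iff_mem r
  have hw := w.intValuation_lt_one_iff_mem r
  rw [← hv, ← hw, h1]

end val

theorem s_sex : S_SEX := by
  intro K M _ _ _ _ _ Z hZ
  classical
  have : FiniteDimensional K M := Module.Finite.of_restrictScalars_finite ℚ K M
  have : Finite (M ≃ₐ[K] M) := inferInstance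
  have hsurj := ClassGroup.mk0_surjective (R := 𝓞 M)
  choose rep hrep using hsurj
  set B : Set (HeightOneSpectrum (𝓞 M)) :=
    ⋃ c : ClassGroup (𝓞 M), {v | v.asIdeal ∣ ((rep c : (Ideal (𝓞 M))⁰) : Ideal (𝓞 M))} with hBdef
  have hB : B.Finite := by
    apply Set.finite_iUnion
    intro c
    exact Ideal.finite_factors (nonZeroDivisors.ne_zero (rep c).2)
  set S : Set (HeightOneSpectrum (𝓞 M)) :=
    ⋃ g : M ≃ₐ[K] M, ⋃ w ∈ Z ∪ B, {v | ∀ y : M, w.valuation M (g y) = v.valuation M y} with hSdef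
  have hmem : ∀ v, v ∈ S ↔ ∃ g : M ≃ₐ[K] M, ∃ w ∈ Z ∪ B,
      ∀ y : M, w.valuation M (g y) = v.valuation M y := by
    intro v
    simp only [hSdef, Set.mem_iUnion, Set.mem_ofPred_eq, exists_prop]
  have hsub : Z ∪ B ⊆ S := by
    intro v hv
    rw [hmem]
    exact ⟨1, v, hv, fun y => rfl⟩
  refine ⟨S, ?_, fun v hv => hsub (Or.inl hv), ?_, ?_⟩
  · apply Set.finite_iUnion
    intro g
    apply (hZ.union hB).biUnion
    intro w _
    apply Set.Subsingleton.finite
    intro v1 h1 v2 h2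
    apply eq_of_valuation
    intro y
    rw [← h1 y, ← h2 y]
  · intro w hw v hv
    rw [hmem] at hw ⊢
    obtain ⟨g0, w0, hw0, h0⟩ := hw
    obtain ⟨g, hg⟩ := hv
    refine ⟨g0 * g⁻¹, w0, hw0, fun y => ?_⟩
    have h1 := h0 (g⁻¹ y)
    have h2 := hg (g⁻¹ y)
    have h3 : g (g⁻¹ y) = y := g.apply_symm_apply y
    rw [h3] at h2
    rw [h2, ← h1]
    rfl
  · intro n
    set J : FractionalIdeal (𝓞 M)⁰ M :=
      n.prod (fun v k => (v.asIdeal : FractionalIdeal (𝓞 M)⁰ M) ^ k) with hJ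
    have hJ0 : J ≠ 0 := by
      rw [hJ, Finsupp.prod, Finset.prod_ne_zero_iff]
      intro v _
      exact zpow_ne_zero _ (coeIdeal_ne_zero.mpr v.ne_bot)
    have hJc : ∀ w, count M w J = n w := fun w => count_finsuppProd M w n
    set c : ClassGroup (𝓞 M) := (ClassGroup.equiv M).symm (QuotientGroup.mk (Units.mk0 J hJ0)) with hc
    have hI0 : ((rep c : (Ideal (𝓞 M))⁰) : Ideal (𝓞 M)) ≠ 0 := nonZeroDivisors.ne_zero (rep c).2
    have e1 : (QuotientGroup.mk (Units.mk0 J hJ0) : (FractionalIdeal (𝓞 M)⁰ M)ˣ ⧸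
        (toPrincipalIdeal (𝓞 M) M).range) = QuotientGroup.mk (FractionalIdeal.mk0 M (rep c)) := by
      have h1 : (ClassGroup.equiv M) c = QuotientGroup.mk (Units.mk0 J hJ0) := by
        rw [hc, MulEquiv.apply_symm_apply]
      rw [← h1, ← hrep c, ClassGroup.equiv_mk0]
      rw [hrep c]
      rfl
    rw [QuotientGroup.eq] at e1
    obtain ⟨x, hx⟩ := e1
    have e2 : (FractionalIdeal.mk0 M (rep c)) = (Units.mk0 J hJ0) * toPrincipalIdeal (𝓞 M) M x := by
      rw [hx, mul_inv_cancel_left]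
    have e3 : (((rep c : (Ideal (𝓞 M))⁰) : Ideal (𝓞 M)) : FractionalIdeal (𝓞 M)⁰ M) =
        J * spanSingleton (𝓞 M)⁰ (x : M) := by
      have := congrArg (fun u : (FractionalIdeal (𝓞 M)⁰ M)ˣ => (u : FractionalIdeal (𝓞 M)⁰ M)) e2
      simpa using this
    refine ⟨x⁻¹, fun w hw => ?_⟩
    have hwI : count M w (((rep c : (Ideal (𝓞 M))⁰) : Ideal (𝓞 M)) : FractionalIdeal (𝓞 M)⁰ M)
        = 0 := by
      rw [count_coe M w hI0]
      have hnd : ¬ w.asIdeal ∣ ((rep c : (Ideal (𝓞 M))⁰) : Ideal (𝓞 M)) := by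
        intro hd
        apply hw
        apply hsub
        right
        rw [hBdef, Set.mem_iUnion]
        exact ⟨c, hd⟩
      have : (Associates.mk w.asIdeal).count
          (Associates.mk ((rep c : (Ideal (𝓞 M))⁰) : Ideal (𝓞 M))).factors = 0 := by
        by_contra hne
        apply hnd
        rw [← Associates.mk_le_mk_iff_dvd]
        exact (Associates.count_ne_zero_iff_dvd hI0 w.irreducible).1 hne |>
          Associates.mk_le_mk_iff_dvd.2
      rw [this]; rfl
    have hx0 : (x : M) ≠ 0 := x.ne_zero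
    have hm := count_mul M w hJ0 (I' := spanSingleton (𝓞 M)⁰ (x : M))
      (by rw [Ne, spanSingleton_eq_zero_iff]; exact hx0)
    rw [← e3, hwI, hJc w, ← ordv_eq_count w (x : M) hx0] at hm
    have hinv : ordv w (((x⁻¹ : Mˣ) : M)) = - ordv w (x : M) := by
      unfold ordv
      rw [Units.val_inv_eq_inv_val, map_inv₀, WithZero.log_inv]
    rw [hinv]
    linarith

end Pool.Agent.Helper81.RS
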